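import Mathlib

/-!
Braids, as words in the Artin generators, and the Alexander polynomials of closed braids.

The letter `(i, true)` is the generator `σ_i`, `(i, false)` its inverse. A braid on `m + 1` strands is a word in
the letters `(i, _)`, `i < m`.
-/

set_option autoImplicit false

namespace Pool.Agent.Helper27.OBX

open Polynomial LaurentPolynomial

/-- The run `σ_{a+n-1} ⋯ σ_{a+1} σ_a`. -/
def run (a n : ℕ) : List (ℕ × Bool) := (List.range n).reverse.map fun k => (a + k, true)

/-- The `k`-th power. -/
def pw (w : List (ℕ × Bool)) (k : ℕ) : List (ℕ × Bool) := (List.replicate k w).flatten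

/-- The Burau matrix of a letter: the identity matrix with the block `[[1 - T, T], [1, 0]]`, or its
inverse `[[0, 1], [T⁻¹, 1 - T⁻¹]]`, in the places `i, i + 1`. -/
noncomputable def bur (m : ℕ) (p : ℕ × Bool) : Matrix (Fin (m + 1)) (Fin (m + 1)) ℤ[T;T⁻¹] :=
  Matrix.of fun a b =>
    if a.val = p.1 ∧ b.val = p.1 then (if p.2 then 1 - T 1 else 0)
    else if a.val = p.1 ∧ b.val = p.1 + 1 then (if p.2 then T 1 else 1)
    else if a.val = p.1 + 1 ∧ b.val = p.1 then (if p.2 then 1 else T (-1))
    else if a.val = p.1 + 1 ∧ b.val = p.1 + 1 then (if p.2 then 0 else 1 - T (-1))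
    else if a.val = b.val then 1 else 0

/-- The Alexander polynomial of the closure of the braid `L` on `m + 1` strands (up to a unit
`± T ^ k`): the determinant of `1 - ψ` with its first row and column deleted, `ψ` the Burau matrix
of the braid. -/
noncomputable def alexander (m : ℕ) (L : List (ℕ × Bool)) : ℤ[T;T⁻¹] :=
  ((1 - (L.map (bur m)).prod).submatrix Fin.succ Fin.succ).det

/-- `Δ` is up to a unit `± T ^ k` a product of cyclotomic polynomials (repetitions allowed). -/
def IsCyclotomicProduct (Δ : ℤ[T;T⁻¹]) : Prop :=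
  ∃ (k : ℤ) (M : Multiset ℕ), (∀ N ∈ M, 0 < N) ∧
    (Δ = T k * toLaurent (M.map fun N => cyclotomic N ℤ).prod ∨
      -Δ = T k * toLaurent (M.map fun N => cyclotomic N ℤ).prod)

end Pool.Agent.Helper27.OBX
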