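import Pool.Agent.Helper27.OBX.Braid

/-!
The braid groups, Markov moves and iterated torus knots.
-/

set_option autoImplicit false

namespace Pool.Agent.Helper27.OBX

/-- The relators of the braid group on `m + 1` strands with the generators `σ_0, …, σ_{m-1}`. -/
def rels (m : ℕ) : Set (FreeGroup (Fin m)) :=
  {r | ∃ i j : Fin m,
      (i.val + 1 = j.val ∧
        r = FreeGroup.of i * FreeGroup.of j * FreeGroup.of i *
          (FreeGroup.of j * FreeGroup.of i * FreeGroup.of j)⁻¹) ∨
      (i.val + 2 ≤ j.val ∧
        r = FreeGroup.of i * FreeGroup.of j * (FreeGroup.of j * FreeGroup.of i)⁻¹)}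

/-- The element of the free group given by a word (the letters `(i, _)` with `i ≥ m` are ignored). -/
def word (m : ℕ) (L : List (ℕ × Bool)) : FreeGroup (Fin m) :=
  (L.map fun p => if h : p.1 < m then FreeGroup.mk [(⟨p.1, h⟩, p.2)] else 1).prod

/-- The Markov equivalence of a braid on `m + 1` strands and one on `n + 1` strands (by the theorem of
Markov it means that the closures are the same oriented link): the equivalence relation generated by
equality in the braid group, conjugation and stabilisation. -/
inductive SameClosure : ℕ → List (ℕ × Bool) → ℕ → List (ℕ × Bool) → Prop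
  | eq (m : ℕ) (a b : List (ℕ × Bool))
      (h : (word m a)⁻¹ * word m b ∈ Subgroup.normalClosure (rels m)) : SameClosure m a m b
  | conj (m : ℕ) (a b : List (ℕ × Bool)) : SameClosure m (a ++ b) m (b ++ a)
  | stab (m : ℕ) (a : List (ℕ × Bool)) (ha : ∀ p ∈ a, p.1 < m) (e : Bool) :
      SameClosure m a (m + 1) (a ++ [(m, e)])
  | symm (m n : ℕ) (a b : List (ℕ × Bool)) (h : SameClosure m a n b) : SameClosure n b m a
  | trans (m n k : ℕ) (a b c : List (ℕ × Bool)) (h : SameClosure m a n b)
      (h' : SameClosure n b k c) : SameClosure m a k c

/-- The inverse braid. -/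
def inv (L : List (ℕ × Bool)) : List (ℕ × Bool) := (L.map fun p => (p.1, !p.2)).reverse

/-- The positive crossing of the `i`-th block of `n` parallel strands with the next block:
`n²` crossings, none between two strands of the same block. -/
def blk (n i : ℕ) : List (ℕ × Bool) := (List.range n).flatMap fun k => run (i * n + k) n

/-- The braid with every strand replaced by `n` parallel strands. -/
def cabled (n : ℕ) (L : List (ℕ × Bool)) : List (ℕ × Bool) :=
  L.flatMap fun p => if p.2 then blk n p.1 else inv (blk n p.1)

/-- The closure of the braid is an iterated torus knot: it arises from the unknot by finitely many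
cabling operations. The cable runs `n` times parallel to the given closed braid, with the pattern
`(σ_{n-2} ⋯ σ_0)^k` or its inverse, `k` prime to `n`, inserted in the first `n` strands. -/
inductive IsIterTorus : ℕ → List (ℕ × Bool) → Prop
  | unknot : IsIterTorus 0 []
  | cable (m n M k : ℕ) (L w : List (ℕ × Bool)) (hL : ∀ p ∈ L, p.1 < m) (hn : 0 < n)
      (hM : M + 1 = n * (m + 1)) (hk : Nat.Coprime n k)
      (hw : w = run 0 (n - 1) ∨ w = inv (run 0 (n - 1))) (h : IsIterTorus m L) :
      IsIterTorus M (cabled n L ++ pw w k)
  | markov (m n : ℕ) (a b : List (ℕ × Bool)) (h : SameClosure m a n b) (ha : IsIterTorus m a) :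
      IsIterTorus n b

end Pool.Agent.Helper27.OBX
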