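import Pool.Agent.Helper27.OBX.Knot
import Pool.Agent.Helper62.OB.Defs

/-!
Comparison with the definitions of `Pool.Agent.Helper62.OB.Defs`.
-/

set_option autoImplicit false

namespace Pool.Agent.Helper27.OBX

open Polynomial LaurentPolynomial
open Pool.Agent.Helper62

/-- The braid given by a word. -/
def ev (m : ℕ) (L : List (ℕ × Bool)) : OB.BraidGroup m :=
  (L.map fun p => if p.2 then OB.sg m p.1 else (OB.sg m p.1)⁻¹).prod

theorem ev_nil (m : ℕ) : ev m [] = 1 := rfl

theorem ev_cons (m : ℕ) (p : ℕ × Bool) (L : List (ℕ × Bool)) :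
    ev m (p :: L) = (if p.2 then OB.sg m p.1 else (OB.sg m p.1)⁻¹) * ev m L := by
  simp [ev]

theorem ev_append (m : ℕ) (a b : List (ℕ × Bool)) : ev m (a ++ b) = ev m a * ev m b := by
  simp [ev]

theorem ev_inv (m : ℕ) (L : List (ℕ × Bool)) : ev m (inv L) = (ev m L)⁻¹ := by
  induction L with
  | nil => simp [inv, ev]
  | cons p L ih =>
    have h : inv (p :: L) = inv L ++ [(p.1, !p.2)] := by simp [inv]
    rw [h, ev_append, ih, ev_cons m p L, mul_inv_rev, ev_cons, ev_nil, mul_one]
    cases p.2 <;> simp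

theorem ev_pw (m : ℕ) (w : List (ℕ × Bool)) (k : ℕ) : ev m (pw w k) = ev m w ^ k := by
  induction k with
  | zero => simp [pw, ev]
  | succ k ih =>
    have h : pw w (k + 1) = w ++ pw w k := by simp [pw, List.replicate_succ]
    rw [h, ev_append, ih, pow_succ']

theorem ev_zp (m : ℕ) (w : List (ℕ × Bool)) (k : ℤ) :
    ev m (if 0 ≤ k then pw w k.natAbs else pw (inv w) k.natAbs) = ev m w ^ k := by
  split_ifs with h
  · rw [ev_pw, ← zpow_natCast, Int.natAbs_of_nonneg h]
  · rw [ev_pw, ev_inv, ← zpow_natCast, Int.ofNat_natAbs_of_nonpos (by omega), inv_zpow, zpow_neg,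
      inv_inv]

theorem ev_run (m a n : ℕ) : ev m (run a n) = OB.rn m a n := by
  induction n with
  | zero => rfl
  | succ n ih =>
    have h : run a (n + 1) = (a + n, true) :: run a n := by simp [run, List.range_succ]
    rw [h, ev_cons, ih]
    rfl

theorem ev_word (m : ℕ) (L : List (ℕ × Bool)) : PresentedGroup.mk (OB.artinRels m) (word m L) = ev m L := by
  induction L with
  | nil => simp [word, ev]
  | cons p L ih =>
    have h : word m (p :: L) = (if h : p.1 < m then FreeGroup.mk [(⟨p.1, h⟩, p.2)] else 1) * word m L := by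
      simp [word]
    rw [h, map_mul, ih, ev_cons]
    congr 1
    obtain ⟨i, e⟩ := p
    by_cases hi : i < m
    · rw [dif_pos hi]
      cases e
      · have e1 : (FreeGroup.mk [((⟨i, hi⟩ : Fin m), false)]) = (FreeGroup.of ⟨i, hi⟩)⁻¹ := by
          simp [FreeGroup.of, FreeGroup.inv_mk, FreeGroup.invRev]
        simp only [e1, map_inv, OB.sg, dif_pos hi]
        rfl
      · simp only [OB.sg, dif_pos hi]
        rfl
    · rw [dif_neg hi]
      cases e <;> simp [OB.sg, dif_neg hi]

theorem same_eq (m : ℕ) (a b : List (ℕ × Bool)) (h : ev m a = ev m b) : SameClosure m a m b := by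
  refine SameClosure.eq m a b ?_
  rw [← ev_word, ← ev_word] at h
  exact QuotientGroup.eq.1 h

/-- The letters belong to the braid group on `m + 1` strands. -/
def Small (m : ℕ) (L : List (ℕ × Bool)) : Prop := ∀ p ∈ L, p.1 < m

theorem small_append {m : ℕ} {a b : List (ℕ × Bool)} (ha : Small m a) (hb : Small m b) :
    Small m (a ++ b) := by
  intro p hp
  rcases List.mem_append.1 hp with h | h
  · exact ha p h
  · exact hb p h

theorem small_run {m a n : ℕ} (h : a + n ≤ m) : Small m (run a n) := by
  intro p hp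
  simp only [run, List.mem_map, List.mem_reverse, List.mem_range] at hp
  obtain ⟨k, hk, rfl⟩ := hp
  show a + k < m
  omega

theorem small_pw {m : ℕ} {w : List (ℕ × Bool)} (h : Small m w) (k : ℕ) : Small m (pw w k) := by
  intro p hp
  simp only [pw, List.mem_flatten, List.mem_replicate] at hp
  obtain ⟨l, ⟨_, rfl⟩, hp⟩ := hp
  exact h p hp

theorem small_inv {m : ℕ} {w : List (ℕ × Bool)} (h : Small m w) : Small m (inv w) := by
  intro p hp
  simp only [inv, List.mem_reverse, List.mem_map] at hp
  obtain ⟨q, hq, rfl⟩ := hp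
  exact h q hq

theorem small_zp {m : ℕ} {w : List (ℕ × Bool)} (h : Small m w) (k : ℤ) :
    Small m (if 0 ≤ k then pw w k.natAbs else pw (inv w) k.natAbs) := by
  split_ifs
  · exact small_pw h _
  · exact small_pw (small_inv h) _

theorem small_flatMap {α : Type} {m : ℕ} {f : α → List (ℕ × Bool)} {L : List α}
    (h : ∀ x ∈ L, Small m (f x)) : Small m (L.flatMap f) := by
  intro p hp
  obtain ⟨k, hk, hp⟩ := List.mem_flatMap.1 hp
  exact h k hk p hp

theorem exists_word (m : ℕ) (g : OB.BraidGroup m) : ∃ L, Small m L ∧ ev m L = g := by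
  have hg : g ∈ Subgroup.closure (Set.range (PresentedGroup.of : Fin m → OB.BraidGroup m)) := by
    rw [PresentedGroup.closure_range_of]
    trivial
  induction hg using Subgroup.closure_induction with
  | mem x hx =>
    obtain ⟨i, rfl⟩ := hx
    refine ⟨[(i.val, true)], by intro p hp; simp at hp; subst hp; exact i.2, ?_⟩
    rw [ev_cons, ev_nil, mul_one]
    simp only [OB.sg, dif_pos i.2]
    rfl
  | one => exact ⟨[], by intro p hp; simp at hp, rfl⟩
  | mul x y _ _ hx hy =>
    obtain ⟨a, ha, rfl⟩ := hx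
    obtain ⟨b, hb, rfl⟩ := hy
    exact ⟨a ++ b, small_append ha hb, ev_append m a b⟩
  | inv x _ hx =>
    obtain ⟨a, ha, rfl⟩ := hx
    exact ⟨inv a, small_inv ha, ev_inv m a⟩

theorem addStrand_sg (m i : ℕ) (h : i < m) : OB.addStrand m (OB.sg m i) = OB.sg (m + 1) i := by
  rw [OB.sg, dif_pos h, OB.addStrand, OB.braidLift_sigma, OB.sg, dif_pos (h.trans (Nat.lt_succ_self m))]
  rfl

theorem addStrand_ev {m : ℕ} {L : List (ℕ × Bool)} (hL : Small m L) :
    OB.addStrand m (ev m L) = ev (m + 1) L := by
  induction L with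
  | nil => simp [ev_nil]
  | cons p L ih =>
    rw [ev_cons, map_mul, ih (fun q hq => hL q (List.mem_cons_of_mem _ hq)), ev_cons]
    have h := addStrand_sg m p.1 (hL p List.mem_cons_self)
    cases p.2
    · simp [h]
    · simp [h]

/-- Markov equivalence. -/
theorem same_new {x y : Σ m : ℕ, OB.BraidGroup m} (h : OB.SameClosure x y) :
    ∀ a b, ev x.1 a = x.2 → ev y.1 b = y.2 → SameClosure x.1 a y.1 b := by
  induction h with
  | rel x y h =>
    cases h with
    | conj m g c =>
      intro a b ha hb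
      obtain ⟨L, _, hL⟩ := exists_word m c
      refine SameClosure.trans _ _ _ _ _ _ (same_eq m a ((a ++ inv L) ++ L) ?_)
        (SameClosure.trans _ _ _ _ _ _ (SameClosure.conj m (a ++ inv L) L) (same_eq m _ b ?_))
      · rw [ev_append, ev_append, ev_inv]
        group
      · rw [ev_append, ev_append, ev_inv]
        rw [hL, hb, ha]
        group
    | stabPos m g =>
      intro a b ha hb
      obtain ⟨L, hs, hL⟩ := exists_word m g
      refine SameClosure.trans _ _ _ _ _ _ (same_eq m a L (ha.trans hL.symm))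
        (SameClosure.trans _ _ _ _ _ _ (SameClosure.stab m L hs true) (same_eq (m + 1) _ b ?_))
      rw [ev_append, ← addStrand_ev hs, hL, ev_cons, ev_nil, mul_one, hb]
      simp only [OB.sg, dif_pos (Nat.lt_succ_self m)]
      rfl
    | stabNeg m g =>
      intro a b ha hb
      obtain ⟨L, hs, hL⟩ := exists_word m g
      refine SameClosure.trans _ _ _ _ _ _ (same_eq m a L (ha.trans hL.symm))
        (SameClosure.trans _ _ _ _ _ _ (SameClosure.stab m L hs false) (same_eq (m + 1) _ b ?_))
      rw [ev_append, ← addStrand_ev hs, hL, ev_cons, ev_nil, mul_one, hb]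
      simp only [OB.sg, dif_pos (Nat.lt_succ_self m)]
      rfl
  | refl x => exact fun a b ha hb => same_eq _ _ _ (ha.trans hb.symm)
  | symm x y _ ih => exact fun a b ha hb => SameClosure.symm _ _ _ _ (ih b a hb ha)
  | trans x y z _ _ ih1 ih2 =>
    intro a b ha hb
    obtain ⟨c, _, hc⟩ := exists_word y.1 y.2
    exact SameClosure.trans _ _ _ _ _ _ (ih1 a c ha hc) (ih2 c b hc hb)

theorem ev_flatMap {α : Type} (m : ℕ) (f : α → List (ℕ × Bool)) (L : List α) :
    ev m (L.flatMap f) = (L.map fun x => ev m (f x)).prod := by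
  induction L with
  | nil => rfl
  | cons x L ih => rw [List.flatMap_cons, ev_append, ih, List.map_cons, List.prod_cons]

theorem ev_blk (n M i : ℕ) : ev M (blk n i) = OB.blk n M i := by
  rw [blk, ev_flatMap]
  simp only [ev_run]
  rfl

theorem ev_cabled {m : ℕ} (n M : ℕ) (L : List (Fin m × Bool)) :
    ev M (cabled n (L.map fun p => (p.1.val, p.2))) = OB.cabled n M L := by
  rw [cabled, ev_flatMap, List.map_map, OB.cabled]
  congr 1
  refine List.map_congr_left (fun p _ => ?_)
  show ev M (if p.2 then blk n p.1.val else inv (blk n p.1.val)) = _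
  cases p.2
  · simp only [Bool.false_eq_true, if_false, ev_inv, ev_blk]
  · simp only [if_true, ev_blk]

theorem ev_oldword {m : ℕ} (L : List (Fin m × Bool)) :
    ev m (L.map fun p => (p.1.val, p.2)) = OB.word L := by
  rw [ev, OB.word, List.map_map]
  congr 1
  refine List.map_congr_left (fun p _ => ?_)
  show (if p.2 then OB.sg m p.1.val else (OB.sg m p.1.val)⁻¹) = _
  rw [OB.sg, dif_pos p.1.2]

theorem iter_new {x : Σ m : ℕ, OB.BraidGroup m} (h : OB.IsIterTorus x) :
    ∀ a, ev x.1 a = x.2 → IsIterTorus x.1 a := by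
  induction h with
  | unknot => exact fun a ha => IsIterTorus.markov 0 0 [] a (same_eq 0 [] a ha.symm) IsIterTorus.unknot
  | cable m n M k L hn hM hk h ih =>
    intro a ha
    have hw : ∃ w, (w = run 0 (n - 1) ∨ w = inv (run 0 (n - 1))) ∧
        ev M w ^ k.natAbs = OB.rn M 0 (n - 1) ^ k := by
      rcases le_total 0 k with hk0 | hk0
      · refine ⟨_, Or.inl rfl, ?_⟩
        rw [ev_run, ← zpow_natCast, Int.natAbs_of_nonneg hk0]
      · refine ⟨_, Or.inr rfl, ?_⟩
        rw [ev_inv, ev_run, ← zpow_natCast, Int.ofNat_natAbs_of_nonpos hk0, inv_zpow, zpow_neg, inv_inv]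
    obtain ⟨w, hw, hwk⟩ := hw
    have h1 := IsIterTorus.cable m n M k.natAbs (L.map fun p => (p.1.val, p.2)) w (by
      intro p hp
      obtain ⟨q, _, rfl⟩ := List.mem_map.1 hp
      exact q.1.2) hn hM (by
        rw [Int.isCoprime_iff_gcd_eq_one] at hk
        exact hk) hw (ih _ (ev_oldword L))
    refine IsIterTorus.markov M M _ a (same_eq M _ a ?_) h1
    rw [ev_append, ev_pw, ev_cabled, hwk]
    exact ha.symm
  | markov x y h hx ih =>
    intro a ha
    obtain ⟨c, _, hc⟩ := exists_word x.1 x.2
    exact IsIterTorus.markov _ _ c a (same_new h c a hc ha) (ih c hc)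

/-- The Burau representation. -/
noncomputable def psi (m : ℕ) :
    OB.BraidGroup m →* Matrix (Fin (m + 1)) (Fin (m + 1)) ℤ[T;T⁻¹] :=
  (Units.coeHom _).comp (OB.burau m)

theorem psi_letter (m : ℕ) (p : ℕ × Bool) (h : p.1 < m) :
    psi m (if p.2 then OB.sg m p.1 else (OB.sg m p.1)⁻¹) = bur m p := by
  obtain ⟨i, e⟩ := p
  change i < m at h
  have hs : OB.sg m i = OB.sigma ⟨i, h⟩ := by rw [OB.sg, dif_pos h]
  have hT : (T (-1) : ℤ[T;T⁻¹]) * T 1 = 1 := by rw [← T_add]; rfl
  have hT' : (T 1 : ℤ[T;T⁻¹]) * T (-1) = 1 := by rw [← T_add]; rfl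
  cases e
  · have h1 : psi m (if (i, false).2 then OB.sg m (i, false).1 else (OB.sg m (i, false).1)⁻¹) =
        OB.bmatInv m (T 1) (T (-1)) ⟨i, h⟩ := by
      show psi m (OB.sg m i)⁻¹ = _
      rw [hs, psi, MonoidHom.comp_apply, map_inv, OB.burau, OB.braidLift_sigma]
      rfl
    rw [h1]
    ext a b : 2
    simp only [bur, Matrix.of_apply, OB.bmatInv, Matrix.add_apply, Matrix.smul_apply,
      Matrix.vecMulVec_apply, OB.bcol, OB.brow, Matrix.one_apply, Fin.ext_iff, Fin.val_castSucc,
      Fin.val_succ, smul_eq_mul, Bool.false_eq_true, if_false]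
    by_cases h1 : a.val = i
    · by_cases h2 : b.val = i
      · simp [h1, h2, hT]
      · by_cases h3 : b.val = i + 1
        · simp [h1, h3, hT]
        · simp [h1, h2, h3, Ne.symm h2]
    · by_cases h2 : a.val = i + 1
      · by_cases h3 : b.val = i
        · simp [h2, h3]
        · by_cases h4 : b.val = i + 1
          · simp [h2, h4]
            ring
          · simp [h2, h3, h4, Ne.symm h4]
      · simp [h1, h2]
  · have h1 : psi m (if (i, true).2 then OB.sg m (i, true).1 else (OB.sg m (i, true).1)⁻¹) =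
        OB.bmat m (T 1) ⟨i, h⟩ := by
      show psi m (OB.sg m i) = _
      rw [hs, psi, MonoidHom.comp_apply, OB.burau, OB.braidLift_sigma]
      rfl
    rw [h1]
    ext a b : 2
    simp only [bur, Matrix.of_apply, OB.bmat, Matrix.add_apply,
      Matrix.vecMulVec_apply, OB.bcol, OB.brow, Matrix.one_apply, Fin.ext_iff, Fin.val_castSucc,
      Fin.val_succ, if_true]
    by_cases h1 : a.val = i
    · by_cases h2 : b.val = i
      · simp [h1, h2]
        ring
      · by_cases h3 : b.val = i + 1
        · simp [h1, h3]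
        · simp [h1, h2, h3, Ne.symm h2]
    · by_cases h2 : a.val = i + 1
      · by_cases h3 : b.val = i
        · simp [h2, h3]
        · by_cases h4 : b.val = i + 1
          · simp [h2, h4]
          · simp [h2, h3, h4, Ne.symm h4]
      · simp [h1, h2]

theorem psi_ev {m : ℕ} {L : List (ℕ × Bool)} (hL : Small m L) :
    psi m (ev m L) = (L.map (bur m)).prod := by
  induction L with
  | nil => simp [ev_nil]
  | cons p L ih =>
    rw [ev_cons, map_mul, ih (fun q hq => hL q (List.mem_cons_of_mem _ hq)), List.map_cons,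
      List.prod_cons, psi_letter m p (hL p List.mem_cons_self)]

/-- The old form of the hypothesis. -/
theorem alex_old {m : ℕ} {L : List (ℕ × Bool)} (hL : Small m L)
    (h : IsCyclotomicProduct (alexander m L)) :
    OB.IsCyclotomicProduct (OB.alexander (ev m L)) := by
  obtain ⟨k, M, hM, hΔ⟩ := h
  refine ⟨M, hM, k, ?_⟩
  have e : OB.alexander (ev m L) = alexander m L := by
    rw [alexander, ← psi_ev hL]
    rfl
  rw [e]
  rcases hΔ with h | h
  · exact Or.inl h
  · right
    rw [← h, neg_neg]

end Pool.Agent.Helper27.OBX
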