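import Pool.Agent.Helper27.OBX.Main

/-!
The permutation of a braid.
-/

set_option autoImplicit false

namespace Pool.Agent.Helper27.OBX

open Pool.Agent.Helper62

theorem pow_val {m : ℕ} {σ : Equiv.Perm (Fin (m + 1))} {P : Equiv.Perm ℕ}
    (h : ∀ x, (σ x).val = P x.val) (n : ℕ) (x : Fin (m + 1)) : ((σ ^ n) x).val = (P ^ n) x.val := by
  induction n with
  | zero => rfl
  | succ n ih => rw [pow_succ', pow_succ', Equiv.Perm.mul_apply, Equiv.Perm.mul_apply, h, ih]

theorem zpow_val {m : ℕ} {σ : Equiv.Perm (Fin (m + 1))} {P : Equiv.Perm ℕ}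
    (h : ∀ x, (σ x).val = P x.val) (k : ℤ) (x : Fin (m + 1)) : ((σ ^ k) x).val = (P ^ k) x.val := by
  cases k with
  | ofNat n => exact pow_val h n x
  | negSucc n =>
    have h' : ∀ x, (σ⁻¹ x).val = P⁻¹ x.val := by
      intro x
      rw [Equiv.Perm.eq_inv_iff_eq, ← h, ← Equiv.Perm.mul_apply, mul_inv_cancel, Equiv.Perm.one_apply]
    rw [zpow_negSucc, zpow_negSucc, ← inv_pow, ← inv_pow]
    exact pow_val h' _ x

theorem permHom_sg (m i : ℕ) (hi : i < m) (x : Fin (m + 1)) :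
    (OB.permHom m (OB.sg m i) x).val = Equiv.swap i (i + 1) x.val := by
  rw [OB.sg, dif_pos hi, OB.permHom, OB.braidLift_sigma]
  simp only [Equiv.swap_apply_def, Fin.ext_iff, Fin.val_castSucc, Fin.val_succ]
  split_ifs <;> simp_all

theorem permHom_sg_inv (m i : ℕ) (hi : i < m) (x : Fin (m + 1)) :
    (OB.permHom m (OB.sg m i)⁻¹ x).val = Equiv.swap i (i + 1) x.val := by
  rw [map_inv]
  have h : ((Equiv.swap i (i + 1) : Equiv.Perm ℕ)⁻¹) = Equiv.swap i (i + 1) := Equiv.swap_inv _ _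
  rw [← h, Equiv.Perm.eq_inv_iff_eq, ← permHom_sg m i hi, ← Equiv.Perm.mul_apply, mul_inv_cancel,
    Equiv.Perm.one_apply]

theorem permHom_ev {m : ℕ} {L : List (ℕ × Bool)} (hL : Small m L) (x : Fin (m + 1)) :
    (OB.permHom m (ev m L) x).val =
      (L.map fun p => Equiv.swap p.1 (p.1 + 1)).prod x.val := by
  induction L generalizing x with
  | nil => simp [ev_nil]
  | cons p L ih =>
    rw [ev_cons, map_mul, Equiv.Perm.mul_apply, List.map_cons, List.prod_cons,
      Equiv.Perm.mul_apply, ← ih (fun q hq => hL q (List.mem_cons_of_mem _ hq))]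
    have hp := hL p List.mem_cons_self
    cases p.2
    · exact permHom_sg_inv m p.1 hp _
    · exact permHom_sg m p.1 hp _

theorem knot_old {m : ℕ} {L : List (ℕ × Bool)} (hL : ∀ p ∈ L, p.1 < m)
    (h : ∀ i ≤ m, (L.map fun p => Equiv.swap p.1 (p.1 + 1)).prod.SameCycle 0 i) :
    OB.IsKnot (ev m L) := by
  intro i j
  have h1 := (h i (Nat.lt_succ_iff.1 i.2)).symm.trans (h j (Nat.lt_succ_iff.1 j.2))
  obtain ⟨k, hk⟩ := h1
  refine ⟨k, Fin.ext ?_⟩
  rw [zpow_val (permHom_ev hL), hk]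

end Pool.Agent.Helper27.OBX
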